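import Pool.Agent.H22.CZ.MaF

set_option autoImplicit false

namespace Pool.Agent.Results.MP_ede373_nt.CubicPoints

/-- For every point `z` of the upper half-plane of degree 3 over `ℚ` the numbers `j(z)`, `j'(z)`,
`j''(z)` are algebraically independent over `ℚ`; and the bound `3n` asked for holds for all tuples
of pairwise inequivalent points of one cubic field (there are at most one such point). -/
theorem result (E4 E6 J : ℂ → ℂ)
    (hE4 : ∀ τ : ℂ, E4 τ = 1 + 240 * ∑' m : ℕ, ((ArithmeticFunction.sigma 3 (m + 1) : ℕ) : ℂ) *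
      Complex.exp (2 * (Real.pi : ℂ) * Complex.I * ((m : ℂ) + 1) * τ))
    (hE6 : ∀ τ : ℂ, E6 τ = 1 - 504 * ∑' m : ℕ, ((ArithmeticFunction.sigma 5 (m + 1) : ℕ) : ℂ) *
      Complex.exp (2 * (Real.pi : ℂ) * Complex.I * ((m : ℂ) + 1) * τ))
    (hJ : ∀ τ : ℂ, J τ = 1728 * E4 τ ^ 3 / (E4 τ ^ 3 - E6 τ ^ 2)) :
    (∀ z : ℂ, 0 < z.im → IsIntegral ℚ z → (minpoly ℚ z).natDegree = 3 →
      AlgebraicIndependent ℚ ![J z, deriv J z, deriv (deriv J) z]) ∧
    (∀ M : IntermediateField ℚ ℂ, Module.finrank ℚ M = 3 →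
      ∀ (n : ℕ) (z : Fin n → ℂ), (∀ i, z i ∈ M) → (∀ i, 0 < (z i).im) →
        (∀ i k, i ≠ k → ¬ ∃ a b c d : ℚ, 0 < a * d - b * c ∧
          z k = ((a : ℂ) * z i + (b : ℂ)) / ((c : ℂ) * z i + (d : ℂ))) →
        n ≤ 1 ∧ AlgebraicIndependent ℚ (fun p : Fin n × Fin 3 ↦
          ![J (z p.1), deriv J (z p.1), deriv (deriv J) (z p.1)] p.2)) :=
  ⟨fun z hz hint hdeg ↦ CZ.main_cubic E4 E6 J hE4 hE6 hJ z hz hint hdeg,
    fun M hM n z hz him hne ↦ CZ.main_tuples E4 E6 J hE4 hE6 hJ M hM n z hz him hne⟩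

end Pool.Agent.Results.MP_ede373_nt.CubicPoints
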