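import Pool.Agent.H32.AKM.P32
import Pool.Agent.H32.AKM.P37
import Pool.Agent.H32.AKM.P38

set_option autoImplicit false

namespace Pool.Agent.Results.MP_ede373_nt.LiouvilleFieldPoints

/-- The reals `t s` are, for infinitely many common denominators `q`, exponentially close to the
fractions `p s / q`, and the approximation errors are of very different sizes. -/
def HierApprox {m : ℕ} (t : Fin m → ℝ) (κ : ℝ) : Prop :=
  ∀ K : ℕ, ∃ q : ℕ, K ≤ q ∧ ∃ p : Fin m → ℤ,
    (∀ s, 0 < |t s - p s / q| ∧ |t s - p s / q| < Real.exp (-(q : ℝ) ^ κ)) ∧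
    ∀ r s, r ≠ s → |t r - p r / q| < |t s - p s / q| ^ K ∨
      |t s - p s / q| < |t r - p r / q| ^ K

/-- A tower function. -/
def T : ℕ → ℕ
  | 0 => 1
  | j + 1 => 2 ^ ((j + 1) * (T j + 1))

/-- Let `k` be the real field generated by reals `t_1, ..., t_m` satisfying `HierApprox` for all
exponents, and let `y` be a point of the upper half-plane algebraic over `k`, of any degree. For
tuples of inequivalent points of the orbit of `y` under `GL_2(k)` which are not CM points, at least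
one of them transcendental, the numbers of the modular Schanuel conjecture with derivatives generate
a field of transcendence degree at least `3 n + trdeg Q(z) - 1`. If `y` has degree at most `3` over
`k`, then this orbit contains every point of the upper half-plane in `k(y)`. There are explicit such
reals. -/
theorem result :
    (∀ (E4 E6 J : ℂ → ℂ),
      (∀ τ : ℂ, E4 τ = 1 + 240 * ∑' m : ℕ, ((ArithmeticFunction.sigma 3 (m + 1) : ℕ) : ℂ) *
          Complex.exp (2 * (Real.pi : ℂ) * Complex.I * ((m : ℂ) + 1) * τ)) →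
      (∀ τ : ℂ, E6 τ = 1 - 504 * ∑' m : ℕ, ((ArithmeticFunction.sigma 5 (m + 1) : ℕ) : ℂ) *
          Complex.exp (2 * (Real.pi : ℂ) * Complex.I * ((m : ℂ) + 1) * τ)) →
      (∀ τ : ℂ, J τ = 1728 * E4 τ ^ 3 / (E4 τ ^ 3 - E6 τ ^ 2)) →
      ∀ (m n : ℕ) (t : Fin m → ℝ), (∀ κ : ℝ, HierApprox t κ) →
        ∀ y : ℂ, 0 < y.im →
        IsAlgebraic (IntermediateField.adjoin ℚ (Set.range fun s => ((t s : ℝ) : ℂ))) y →
        ∀ z : Fin n → ℂ,
        (∀ i, ∃ A ∈ IntermediateField.adjoin ℚ (Set.range t),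
          ∃ B ∈ IntermediateField.adjoin ℚ (Set.range t),
          ∃ C ∈ IntermediateField.adjoin ℚ (Set.range t),
          ∃ D ∈ IntermediateField.adjoin ℚ (Set.range t), 0 < A * D - B * C ∧
            z i = ((A : ℂ) * y + (B : ℂ)) / ((C : ℂ) * y + (D : ℂ))) →
        (∀ i, ¬ ∃ a b c : ℤ, (a ≠ 0 ∨ b ≠ 0 ∨ c ≠ 0) ∧
          (a : ℂ) * z i ^ 2 + (b : ℂ) * z i + (c : ℂ) = 0) →
        (∀ i k, i ≠ k → ¬ ∃ a b c d : ℚ, 0 < a * d - b * c ∧
            z k = ((a : ℂ) * z i + (b : ℂ)) / ((c : ℂ) * z i + (d : ℂ))) →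
        ∀ (r : ℕ) (g : Fin (r + 1) → Fin n), AlgebraicIndependent ℚ (fun k => z (g k)) →
          ∃ f : Fin (3 * n + r) → Fin n × Fin 4,
            AlgebraicIndependent ℚ (fun k : Fin (3 * n + r) =>
              ![z (f k).1, J (z (f k).1), deriv J (z (f k).1), deriv (deriv J) (z (f k).1)]
                (f k).2)) ∧
    (∀ (m : ℕ) (t : Fin m → ℝ) (y z : ℂ), 0 < y.im → 0 < z.im →
      IsIntegral (IntermediateField.adjoin ℚ (Set.range fun s => ((t s : ℝ) : ℂ))) y →
      (minpoly (IntermediateField.adjoin ℚ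
        (Set.range fun s => ((t s : ℝ) : ℂ))) y).natDegree ≤ 3 →
      z ∈ IntermediateField.adjoin ℚ ((Set.range fun s => ((t s : ℝ) : ℂ)) ∪ {y}) →
      ∃ A ∈ IntermediateField.adjoin ℚ (Set.range t),
        ∃ B ∈ IntermediateField.adjoin ℚ (Set.range t),
        ∃ C ∈ IntermediateField.adjoin ℚ (Set.range t),
        ∃ D ∈ IntermediateField.adjoin ℚ (Set.range t), 0 < A * D - B * C ∧
          z = ((A : ℂ) * y + (B : ℂ)) / ((C : ℂ) * y + (D : ℂ))) ∧
    ∀ (m : ℕ) (κ : ℝ), HierApprox (fun s : Fin m => ∑' k : ℕ, (1 / 2 : ℝ) ^ T (m * k + s)) κ := by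
  refine ⟨?_, ?_, ?_⟩
  · intro E4 E6 J h4 h6 hJ m n t happ y hy hya z hz hcm hrel r g hg
    exact AK.main_AK h4 h6 hJ t happ y hy hya z hz hcm hrel (r + 1) g hg
  · intro m t y z hy hz hyi hdeg hzk
    exact AK.cubic_orbit2 t y z hy hz hyi hdeg hzk
  · intro m κ
    rcases Nat.eq_zero_or_pos m with hm | hm
    · subst hm
      exact fun K ↦ ⟨K, le_rfl, fun _ ↦ 0, fun s ↦ s.elim0, fun r ↦ r.elim0⟩
    · have hT : ∀ j, T j = AO.Ex.TT j := by
        intro j
        induction j with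
        | zero => rw [AO.Ex.TT_zero, T]
        | succ j ih => rw [AO.Ex.TT_succ, T, ih]
      intro K
      obtain ⟨q, hq, p, h1, h2⟩ := AO.Ex.tex_hier hm κ K
      simp only [hT]
      refine ⟨q, hq, p, h1, fun r s hrs ↦ ?_⟩
      rcases lt_or_gt_of_ne hrs with h | h
      · exact Or.inr (h2 r s h)
      · exact Or.inl (h2 s r h)

end Pool.Agent.Results.MP_ede373_nt.LiouvilleFieldPoints
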