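import Pool.Agent.H22.U2.Main

set_option autoImplicit false

namespace Pool.Agent.Results.MP_ede373_nt.NonCMPoints

/-- For every point `z` of the upper half-plane which is not a CM point, at least two of the numbers
`z`, `j(z)`, `j'(z)`, `j''(z)` are algebraically independent over `ℚ`. -/
theorem result (E4 E6 J : ℂ → ℂ)
    (hE4 : ∀ τ : ℂ, E4 τ = 1 + 240 * ∑' m : ℕ, ((ArithmeticFunction.sigma 3 (m + 1) : ℕ) : ℂ) *
      Complex.exp (2 * (Real.pi : ℂ) * Complex.I * ((m : ℂ) + 1) * τ))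
    (hE6 : ∀ τ : ℂ, E6 τ = 1 - 504 * ∑' m : ℕ, ((ArithmeticFunction.sigma 5 (m + 1) : ℕ) : ℂ) *
      Complex.exp (2 * (Real.pi : ℂ) * Complex.I * ((m : ℂ) + 1) * τ))
    (hJ : ∀ τ : ℂ, J τ = 1728 * E4 τ ^ 3 / (E4 τ ^ 3 - E6 τ ^ 2))
    (z : ℂ) (hz : 0 < z.im)
    (hcm : ¬ ∃ a b c : ℤ, (a ≠ 0 ∨ b ≠ 0 ∨ c ≠ 0) ∧ (a : ℂ) * z ^ 2 + b * z + c = 0) :
    ∃ g : Fin 2 → Fin 4, Function.Injective g ∧
      AlgebraicIndependent ℚ (fun i ↦ ![z, J z, deriv J z, deriv (deriv J) z] (g i)) :=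
  U2.main_u2 E4 E6 J hE4 hE6 hJ z hz hcm

end Pool.Agent.Results.MP_ede373_nt.NonCMPoints
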