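import Pool.Agent.H32.M.K15

set_option autoImplicit false

namespace Pool.Agent.Results.MP_ede373_nt.QuadraticFieldTuples

/-- The reals `t s` are, for infinitely many common denominators `q`, exponentially close to the
fractions `p s / q`, and the approximation errors are of very different sizes. -/
def HierApprox {m : ℕ} (t : Fin m → ℝ) (κ : ℝ) : Prop :=
  ∀ K : ℕ, ∃ q : ℕ, K ≤ q ∧ ∃ p : Fin m → ℤ,
    (∀ s, 0 < |t s - p s / q| ∧ |t s - p s / q| < Real.exp (-(q : ℝ) ^ κ)) ∧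
    ∀ r s, r ≠ s → |t r - p r / q| < |t s - p s / q| ^ K ∨
      |t s - p s / q| < |t r - p r / q| ^ K

/-- A tower function. -/
def T : ℕ → ℕ
  | 0 => 1
  | j + 1 => 2 ^ ((j + 1) * (T j + 1))

/-- Let `k` be the real field generated by reals `t_1, ..., t_m` satisfying `HierApprox` for all
exponents. For tuples of points lying in `b + 1` imaginary quadratic extensions of `k`, the numbers
of the modular Schanuel conjecture with derivatives generate a field of transcendence degree at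
least `3 n + trdeg Q(z) - b`; and there are explicit such reals. -/
theorem result :
    (∀ (E4 E6 J : ℂ → ℂ),
      (∀ τ : ℂ, E4 τ = 1 + 240 * ∑' m : ℕ, ((ArithmeticFunction.sigma 3 (m + 1) : ℕ) : ℂ) *
          Complex.exp (2 * (Real.pi : ℂ) * Complex.I * ((m : ℂ) + 1) * τ)) →
      (∀ τ : ℂ, E6 τ = 1 - 504 * ∑' m : ℕ, ((ArithmeticFunction.sigma 5 (m + 1) : ℕ) : ℂ) *
          Complex.exp (2 * (Real.pi : ℂ) * Complex.I * ((m : ℂ) + 1) * τ)) →
      (∀ τ : ℂ, J τ = 1728 * E4 τ ^ 3 / (E4 τ ^ 3 - E6 τ ^ 2)) →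
      ∀ (m n b : ℕ) (t : Fin m → ℝ), (∀ κ : ℝ, HierApprox t κ) →
        ∀ d : Fin (b + 1) → ℝ,
        (∀ c, d c ∈ IntermediateField.adjoin ℚ (Set.range t) ∧ 0 < d c) →
        ∀ (c : Fin n → Fin (b + 1)) (z : Fin n → ℂ),
        (∀ i, 0 < (z i).im) →
        (∀ i, ∃ A ∈ IntermediateField.adjoin ℚ (Set.range t),
          ∃ B ∈ IntermediateField.adjoin ℚ (Set.range t),
            z i = (A : ℂ) + (B : ℂ) * ((Real.sqrt (d (c i)) : ℝ) : ℂ) * Complex.I) →
        (∀ i, ¬ ∃ a b c : ℤ, a ≠ 0 ∧ (a : ℂ) * z i ^ 2 + (b : ℂ) * z i + (c : ℂ) = 0) →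
        (∀ i k, i ≠ k → ¬ ∃ a b c d : ℚ, 0 < a * d - b * c ∧
            z k = ((a : ℂ) * z i + (b : ℂ)) / ((c : ℂ) * z i + (d : ℂ))) →
        (∀ i, Transcendental ℚ (z i)) ∧
        ∀ (ρ : ℕ) (g : Fin ρ → Fin n), AlgebraicIndependent ℚ (fun k => z (g k)) →
          ∃ f : Fin (3 * n + ρ - b) → Fin n × Fin 4,
            AlgebraicIndependent ℚ (fun k : Fin (3 * n + ρ - b) =>
              ![z (f k).1, J (z (f k).1), deriv J (z (f k).1), deriv (deriv J) (z (f k).1)]
                (f k).2)) ∧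
    ∀ (m : ℕ) (κ : ℝ), HierApprox (fun s : Fin m => ∑' k : ℕ, (1 / 2 : ℝ) ^ T (m * k + s)) κ := by
  constructor
  · intro E4 E6 J h4 h6 hJ m n b t happ d hd c z him hU hCM hne
    exact H32.T4.main_Q h4 h6 hJ t happ d hd c z him hU hCM hne
  · intro m κ
    rcases Nat.eq_zero_or_pos m with hm | hm
    · subst hm
      exact fun K ↦ ⟨K, le_rfl, fun _ ↦ 0, fun s ↦ s.elim0, fun r ↦ r.elim0⟩
    · have hT : ∀ j, T j = H32.TT j := by
        intro j
        induction j with
        | zero => rw [H32.TT_zero, T]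
        | succ j ih => rw [H32.TT_succ, T, ih]
      intro K
      obtain ⟨q, hq, p, h1, h2⟩ := H32.tex_hier hm κ K
      simp only [hT]
      refine ⟨q, hq, p, h1, fun r s hrs ↦ ?_⟩
      rcases lt_or_gt_of_ne hrs with h | h
      · exact Or.inr (h2 r s h)
      · exact Or.inl (h2 s r h)

end Pool.Agent.Results.MP_ede373_nt.QuadraticFieldTuples
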